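import Pool.Agent.Y808.LB.Stm

/-! Lindel's lemma, explicit case (helper50, project LB of helper808). -/

set_option autoImplicit false

open Polynomial IsLocalRing Pool.Agent.H40.BP

namespace Pool.Agent.Y50.LB

open Pool.Agent.Y808.LB

section basics

variable {B0 B : Type} [CommRing B0] [CommRing B] [Algebra B0 B]

theorem aeval_split (b : B) (P : B0[X]) :
    aeval b P = aeval b (divX P) * b + algebraMap B0 B (P.coeff 0) := by
  conv_lhs => rw [← divX_mul_X_add P]
  rw [map_add, map_mul, aeval_X, aeval_C]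

variable [IsLocalRing B] [IsLocalHom (algebraMap B0 B)]

theorem isUnit_iff {b : B} (hb : b ∈ maximalIdeal B) (P : B0[X]) :
    IsUnit (aeval b P) ↔ IsUnit (P.coeff 0) := by
  have hmul : aeval b (divX P) * b ∈ maximalIdeal B := Ideal.mul_mem_left _ _ hb
  constructor
  · intro h
    by_contra hcon
    have h1 : algebraMap B0 B (P.coeff 0) ∈ maximalIdeal B := by
      rw [mem_maximalIdeal]
      intro h2
      exact hcon (isUnit_of_map_unit (algebraMap B0 B) _ h2)
    have h2 : aeval b P ∈ maximalIdeal B := by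
      rw [aeval_split]
      exact Ideal.add_mem _ hmul h1
    exact (mem_maximalIdeal _).mp h2 h
  · intro h
    by_contra hcon
    have h1 : aeval b P ∈ maximalIdeal B := (mem_maximalIdeal _).mpr hcon
    rw [aeval_split] at h1
    have h2 : algebraMap B0 B (P.coeff 0) ∈ maximalIdeal B :=
      (Ideal.add_mem_iff_right _ hmul).mp h1
    exact (mem_maximalIdeal _).mp h2 (h.map _)

end basics

/-- The prime ideal of the polynomials with constant coefficient in the maximal ideal. -/
noncomputable def NN (B0 : Type) [CommRing B0] [IsLocalRing B0] : Ideal B0[X] :=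
  RingHom.ker ((residue B0).comp (constantCoeff : B0[X] →+* B0))

instance (B0 : Type) [CommRing B0] [IsLocalRing B0] : (NN B0).IsPrime := by
  unfold NN
  exact RingHom.ker_isPrime _

theorem mem_NN {B0 : Type} [CommRing B0] [IsLocalRing B0] {P : B0[X]} :
    P ∈ NN B0 ↔ P.coeff 0 ∈ maximalIdeal B0 := by
  unfold NN
  rw [RingHom.mem_ker, RingHom.comp_apply, residue_eq_zero_iff, constantCoeff_apply]

theorem isUnit_of_notMem {B0 : Type} [CommRing B0] [IsLocalRing B0] {P : B0[X]}
    (h : P ∉ NN B0) : IsUnit (P.coeff 0) := by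
  rw [mem_NN, mem_maximalIdeal] at h
  simpa using h

/-- Lindel's lemma, explicit case -/
theorem t_LINE : S_SURJ → S_LINE := by
  intro hS B0 B _ _ _ _ _ _ _ _ d a ha hmap hdim b F hb hb0 hF hFb hF' hgen
  -- units
  have hF1 : IsUnit (F.coeff 1) := by
    have h1 := (isUnit_iff hb (derivative F)).mp hF'
    rw [coeff_derivative] at h1
    simpa using h1
  have hF1b : IsUnit (aeval b (divX F)) := by
    rw [isUnit_iff hb, coeff_divX]
    simpa using hF1
  have ha0 : algebraMap B0 B (F.coeff 0) = -(aeval b (divX F) * b) := by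
    have h1 := aeval_split b F
    rw [hFb] at h1
    linear_combination -h1
  have ha0m : F.coeff 0 ∈ maximalIdeal B0 := by
    rw [mem_maximalIdeal]
    intro h1
    have h2 : algebraMap B0 B (F.coeff 0) ∈ maximalIdeal B := by
      rw [ha0]
      exact neg_mem (Ideal.mul_mem_left _ _ hb)
    exact (mem_maximalIdeal _).mp h2 (h1.map _)
  have hne : algebraMap B0 B (F.coeff 0) ≠ 0 := by
    rw [ha0, neg_ne_zero]
    exact mul_ne_zero hF1b.ne_zero hb0
  -- the local ring `E`
  let S := Localization.AtPrime (NN B0)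
  let I : Ideal S := Ideal.span {algebraMap B0[X] S F}
  have hSN : IsNoetherianRing S := IsLocalization.isNoetherianRing (NN B0).primeCompl S inferInstance
  have hFN : F ∈ NN B0 := mem_NN.mpr ha0m
  have hI : I ≤ maximalIdeal S := by
    rw [Ideal.span_singleton_le_iff_mem]
    exact (IsLocalization.AtPrime.to_map_mem_maximal_iff S (NN B0) F).mpr hFN
  have hIne : I ≠ ⊤ := fun h => (maximalIdeal.isMaximal S).ne_top (top_le_iff.mp (h ▸ hI))
  let E := S ⧸ I
  have hEn : Nontrivial E := Ideal.Quotient.nontrivial_iff.mpr hIne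
  have hEl : IsLocalRing E := IsLocalRing.of_surjective' (Ideal.Quotient.mk I)
    Ideal.Quotient.mk_surjective
  have hEN : IsNoetherianRing E := inferInstance
  -- the map to `E`
  let q : B0[X] →+* E := (Ideal.Quotient.mk I).comp (algebraMap B0[X] S)
  have hqF : q F = 0 := by
    change Ideal.Quotient.mk I (algebraMap B0[X] S F) = 0
    rw [Ideal.Quotient.eq_zero_iff_mem]
    exact Ideal.mem_span_singleton_self _
  have hqu : ∀ P : B0[X], P ∉ NN B0 → IsUnit (q P) := by
    intro P hP
    exact (IsLocalization.map_units S (⟨P, hP⟩ : (NN B0).primeCompl)).map (Ideal.Quotient.mk I)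
  have hqs : ∀ e : E, ∃ P Q : B0[X], Q ∉ NN B0 ∧ q Q * e = q P := by
    intro e
    obtain ⟨s, rfl⟩ := Ideal.Quotient.mk_surjective e
    obtain ⟨P, Q, rfl⟩ := IsLocalization.exists_mk'_eq (NN B0).primeCompl s
    refine ⟨P, Q, Q.2, ?_⟩
    change Ideal.Quotient.mk I (algebraMap B0[X] S Q) * _ = Ideal.Quotient.mk I (algebraMap B0[X] S P)
    rw [← map_mul, IsLocalization.mk'_spec']
  -- maps from `E`
  have hlift : ∀ (T : Type) [CommRing T] (g : B0[X] →+* T), (∀ P, P ∉ NN B0 → IsUnit (g P)) →
      g F = 0 → ∃ φ : E →+* T, ∀ P, φ (q P) = g P := by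
    intro T _ g hg hgF
    have h1 : ∀ y : (NN B0).primeCompl, IsUnit (g y) := fun y => hg y y.2
    let φS : S →+* T := IsLocalization.lift h1
    have h2 : ∀ P, φS (algebraMap B0[X] S P) = g P := fun P => IsLocalization.lift_eq h1 P
    have h3 : ∀ s ∈ I, φS s = 0 := by
      intro s hs
      have h4 : I ≤ RingHom.ker φS := by
        rw [Ideal.span_singleton_le_iff_mem, RingHom.mem_ker, h2]
        exact hgF
      exact h4 hs
    refine ⟨Ideal.Quotient.lift I φS h3, fun P => ?_⟩
    change Ideal.Quotient.lift I φS h3 (Ideal.Quotient.mk I (algebraMap B0[X] S P)) = g P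
    rw [Ideal.Quotient.lift_mk, h2]
  obtain ⟨φ, hφ⟩ := hlift B (aeval b : B0[X] →ₐ[B0] B).toRingHom (fun P hP =>
    (isUnit_iff hb P).mpr (isUnit_of_notMem hP)) hFb
  have hφ' : ∀ P : B0[X], φ (q P) = aeval b P := hφ
  have hφs : Function.Surjective φ := by
    intro z
    obtain ⟨P, Q, hQ, hz⟩ := hgen z
    have hQN : Q ∉ NN B0 := by
      rw [mem_NN, mem_maximalIdeal]
      intro h
      exact h ((isUnit_iff hb Q).mp hQ)
    obtain ⟨u, hu⟩ := hqu Q hQN
    refine ⟨↑u⁻¹ * q P, ?_⟩
    apply hQ.mul_left_cancel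
    rw [hz, ← hφ' Q, ← map_mul, ← mul_assoc, ← hu, Units.mul_inv, one_mul, hφ']
  -- the maximal ideal of `E`
  have hspan : ∀ x ∈ maximalIdeal B0,
      q (C x) ∈ Ideal.span (Set.range fun i => q (C (a i))) := by
    intro x hx
    rw [ha] at hx
    have h1 := Ideal.mem_map_of_mem (q.comp C) hx
    rw [Ideal.map_span, ← Set.range_comp] at h1
    exact h1
  have hE : maximalIdeal E = Ideal.span (Set.range fun i => q (C (a i))) := by
    apply le_antisymm
    · intro x hx
      obtain ⟨P, Q, hQ, hxPQ⟩ := hqs x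
      obtain ⟨u, hu⟩ := hqu Q hQ
      have hP : P ∈ NN B0 := by
        by_contra hP
        apply (mem_maximalIdeal _).mp hx
        have h1 := hqu P hP
        rw [← hxPQ] at h1
        exact isUnit_of_mul_isUnit_right h1
      have hX : q X ∈ Ideal.span (Set.range fun i => q (C (a i))) := by
        have hF1N : divX F ∉ NN B0 := by
          rw [mem_NN, mem_maximalIdeal, coeff_divX]
          intro h
          exact h (by simpa using hF1)
        obtain ⟨v, hv⟩ := hqu _ hF1N
        have h1 : q (divX F) * q X + q (C (F.coeff 0)) = 0 := by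
          rw [← map_mul, ← map_add, divX_mul_X_add, hqF]
        have h2 : q X = -(↑v⁻¹ * q (C (F.coeff 0))) := by
          rw [← hv] at h1
          have h3 : (↑v⁻¹ : E) * (↑v * q X + q (C (F.coeff 0))) = 0 := by rw [h1, mul_zero]
          rw [mul_add, ← mul_assoc, Units.inv_mul, one_mul] at h3
          exact eq_neg_of_add_eq_zero_left h3
        rw [h2]
        exact neg_mem (Ideal.mul_mem_left _ _ (hspan _ ha0m))
      have hqP : q P ∈ Ideal.span (Set.range fun i => q (C (a i))) := by
        rw [← divX_mul_X_add P, map_add, map_mul]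
        exact Ideal.add_mem _ (Ideal.mul_mem_left _ _ hX) (hspan _ (mem_NN.mp hP))
      have hx2 : x = ↑u⁻¹ * q P := by
        rw [← hxPQ, ← mul_assoc, ← hu, Units.inv_mul, one_mul]
      rw [hx2]
      exact Ideal.mul_mem_left _ _ hqP
    · rw [Ideal.span_le]
      rintro _ ⟨i, rfl⟩
      change q (C (a i)) ∈ maximalIdeal E
      rw [mem_maximalIdeal]
      intro h
      have h1 := h.map φ
      rw [hφ', aeval_C] at h1
      have h2 : a i ∈ maximalIdeal B0 := by
        rw [ha]
        exact Ideal.subset_span ⟨i, rfl⟩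
      exact (mem_maximalIdeal _).mp h2 (isUnit_of_map_unit _ _ h1)
  obtain ⟨hinj, -⟩ := hS E B φ d (fun i => q (C (a i))) hφs hE hdim
  -- saturation
  have hsat : ∀ (x : B0) (c : B), algebraMap B0 B x = algebraMap B0 B (F.coeff 0) * c →
      ∃ x' : B0, x = F.coeff 0 * x' := by
    intro x c hxc
    obtain ⟨e, rfl⟩ := hφs c
    have h1 : q (C x) = q (C (F.coeff 0)) * e := by
      apply hinj
      rw [map_mul, hφ', hφ', aeval_C, aeval_C, hxc]
    obtain ⟨ρ, hρ⟩ := hlift (B0 ⧸ Ideal.span {F.coeff 0})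
      ((Ideal.Quotient.mk (Ideal.span {F.coeff 0})).comp constantCoeff) (fun P hP => by
        rw [RingHom.comp_apply, constantCoeff_apply]
        exact (isUnit_of_notMem hP).map _) (by
        rw [RingHom.comp_apply, constantCoeff_apply, Ideal.Quotient.eq_zero_iff_mem]
        exact Ideal.mem_span_singleton_self _)
    have h2 : ρ (q (C x)) = 0 := by
      rw [h1, map_mul, hρ, RingHom.comp_apply, constantCoeff_apply, coeff_C_zero,
        Ideal.Quotient.eq_zero_iff_mem.mpr (Ideal.mem_span_singleton_self _), zero_mul]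
    rw [hρ, RingHom.comp_apply, constantCoeff_apply, coeff_C_zero,
      Ideal.Quotient.eq_zero_iff_mem, Ideal.mem_span_singleton] at h2
    obtain ⟨x', hx'⟩ := h2
    exact ⟨x', hx'⟩
  refine ⟨⟨?_, ?_, ?_, hsat⟩, ha0m⟩
  · -- injectivity
    rw [RingHom.injective_iff_ker_eq_bot]
    refine Submodule.eq_bot_of_le_smul_of_le_jacobson_bot (Ideal.span {F.coeff 0}) _
      (IsNoetherian.noetherian _) ?_ ?_
    · intro x hx
      have hx0 : algebraMap B0 B x = 0 := hx
      obtain ⟨x', hx'⟩ := hsat x 0 (by rw [hx0, mul_zero])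
      have h1 : algebraMap B0 B x' = 0 := by
        have h2 : algebraMap B0 B (F.coeff 0) * algebraMap B0 B x' = 0 := by
          rw [← map_mul, ← hx', hx0]
        exact (mul_eq_zero.mp h2).resolve_left hne
      rw [hx']
      exact Submodule.smul_mem_smul (Ideal.mem_span_singleton_self _) h1
    · rw [IsLocalRing.jacobson_eq_maximalIdeal _ bot_ne_top, Ideal.span_singleton_le_iff_mem]
      exact ha0m
  · intro r hr
    exact (mul_eq_zero.mp hr).resolve_left hne
  · intro z
    obtain ⟨P, Q, hQ, hz⟩ := hgen z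
    obtain ⟨Q0, hQ0⟩ := (isUnit_iff hb Q).mp hQ
    obtain ⟨v, hv⟩ := hQ
    obtain ⟨w, hw⟩ := hF1b
    set x : B0 := P.coeff 0 * ↑Q0⁻¹ with hx
    have hxQ : x * Q.coeff 0 = P.coeff 0 := by
      rw [hx, ← hQ0, mul_assoc, Units.inv_mul, mul_one]
    refine ⟨x, -(↑w⁻¹ * (↑v⁻¹ * (aeval b (divX P) - algebraMap B0 B x * aeval b (divX Q)))), ?_⟩
    have h1 : aeval b Q * (z - algebraMap B0 B x) =
        b * (aeval b (divX P) - algebraMap B0 B x * aeval b (divX Q)) := by
      rw [mul_sub, hz, aeval_split b P, aeval_split b Q, ← hxQ, map_mul]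
      ring
    have h2 : z - algebraMap B0 B x =
        ↑v⁻¹ * (b * (aeval b (divX P) - algebraMap B0 B x * aeval b (divX Q))) := by
      rw [← h1, ← hv, ← mul_assoc, Units.inv_mul, one_mul]
    have h3 : b = -(↑w⁻¹ * algebraMap B0 B (F.coeff 0)) := by
      rw [ha0, ← hw, mul_neg, ← mul_assoc, Units.inv_mul, one_mul, neg_neg]
    linear_combination h2 +
      (↑v⁻¹ * (aeval b (divX P) - algebraMap B0 B x * aeval b (divX Q))) * h3

end Pool.Agent.Y50.LB
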